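import Pool.Agent.MP_587aff_al.LS.Flow

/-! # The Markov chain (MP_587aff_al, LogSpreading) -/

set_option autoImplicit false

open scoped Pointwise ENNReal
open Filter Topology

namespace Pool.Agent.MP_587aff_al.LS

universe u

/-- The law of a Markov chain with transition law `κ` after `k` steps. -/
noncomputable def stepLaw {X : Type u} (κ : X → PMF X) : ℕ → X → PMF X
  | 0, x => PMF.pure x
  | k + 1, x => (κ x).bind fun y => stepLaw κ k y

variable {G : Type u} [Group G] [DecidableEq G]

/-- a flow on the spanning tree -/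
structure IsFlow (S : Finset G) (u : ℕ → G → ℝ) : Prop where
  nonneg : ∀ n, ∀ x ∈ sph S n, 0 ≤ u n x
  flow : ∀ n, ∀ x ∈ sph S n, u n x = ∑ y ∈ (sph S (n + 1)).filter (fun y => par S y = x), u (n + 1) y

/-- the descendants of `x` (of level `n`) after `k` steps -/
noncomputable def dsc (S : Finset G) (n k : ℕ) (x : G) : Finset G :=
  (sph S (n + k)).filter fun y => (par S)^[k] y = x

theorem mem_dsc {S : Finset G} {n k : ℕ} {x y : G} :
    y ∈ dsc S n k x ↔ y ∈ sph S (n + k) ∧ (par S)^[k] y = x := by
  unfold dsc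
  rw [Finset.mem_filter]

variable {S : Finset G} {u : ℕ → G → ℝ}

theorem IsFlow.dsc (hu : IsFlow S u) (n k : ℕ) {x : G} (hx : x ∈ sph S n) :
    u n x = ∑ y ∈ dsc S n k x, u (n + k) y := by
  induction k with
  | zero =>
    have h1 : LS.dsc S n 0 x = {x} := by
      ext y
      rw [mem_dsc, Finset.mem_singleton]
      constructor
      · exact fun h => h.2
      · rintro rfl
        exact ⟨hx, rfl⟩
    rw [h1, Finset.sum_singleton]
    rfl
  | succ k ih =>
    rw [ih, ← Finset.sum_fiberwise_of_maps_to (s := LS.dsc S n (k + 1) x) (t := LS.dsc S n k x) (g := par S)]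
    · refine Finset.sum_congr rfl fun z hz => ?_
      rw [mem_dsc] at hz
      rw [hu.flow (n + k) z hz.1]
      refine Finset.sum_congr ?_ fun _ _ => rfl
      ext y
      rw [Finset.mem_filter, Finset.mem_filter, mem_dsc]
      constructor
      · intro h
        refine ⟨⟨h.1, ?_⟩, h.2⟩
        rw [Function.iterate_succ_apply, h.2]
        exact hz.2
      · exact fun h => ⟨h.1.1, h.2⟩
    · intro y hy
      rw [mem_dsc] at hy ⊢
      refine ⟨(par_spec hy.1).1, ?_⟩
      rw [← Function.iterate_succ_apply]
      exact hy.2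

theorem IsFlow.le_of_mem (hu : IsFlow S u) {n k : ℕ} {x y : G} (hx : x ∈ sph S n)
    (hy : y ∈ LS.dsc S n k x) : u (n + k) y ≤ u n x := by
  rw [hu.dsc n k hx]
  exact Finset.single_le_sum (f := fun y => u (n + k) y)
    (fun z hz => hu.nonneg _ z (mem_dsc.1 hz).1) hy

/-- the one step law from `x` of level `n` -/
noncomputable def oneLaw (hu : IsFlow S u) (n : ℕ) (x : G) (hx : x ∈ sph S n) (h : 0 < u n x) : PMF G :=
  PMF.ofFinset (fun y => if y ∈ LS.dsc S n 1 x then ENNReal.ofReal (u (n + 1) y / u n x) else 0)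
    (LS.dsc S n 1 x) (by
      rw [Finset.sum_congr rfl fun y hy => if_pos hy, ← ENNReal.ofReal_sum_of_nonneg, ← Finset.sum_div,
        ← hu.dsc n 1 hx, div_self h.ne', ENNReal.ofReal_one]
      intro y hy
      exact div_nonneg (hu.nonneg _ y (mem_dsc.1 hy).1) h.le)
    (fun y hy => if_neg hy)

open Classical in
/-- the chain -/
noncomputable def chain (hu : IsFlow S u) (x : G) : PMF G :=
  if h : ∃ n, x ∈ sph S n ∧ 0 < u n x then oneLaw hu h.choose x h.choose_spec.1 h.choose_spec.2
  else PMF.pure x

theorem chain_apply (hu : IsFlow S u) {n : ℕ} {x : G} (hx : x ∈ sph S n) (h : 0 < u n x) (y : G) :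
    chain hu x y = if y ∈ LS.dsc S n 1 x then ENNReal.ofReal (u (n + 1) y / u n x) else 0 := by
  have hex : ∃ n, x ∈ sph S n ∧ 0 < u n x := ⟨n, hx, h⟩
  have hn : hex.choose = n := sph_unique hex.choose_spec.1 hx
  unfold chain
  rw [dif_pos hex]
  have : ∀ (n' : ℕ) (hn' : n' = n) (hx' : x ∈ sph S n') (h' : 0 < u n' x),
      oneLaw hu n' x hx' h' y = if y ∈ LS.dsc S n 1 x then ENNReal.ofReal (u (n + 1) y / u n x) else 0 := by
    rintro n' rfl hx' h'
    rfl
  exact this _ hn _ _

theorem stepLaw_le (hu : IsFlow S u) (k : ℕ) {n : ℕ} {x : G} (hx : x ∈ sph S n) (h : 0 < u n x) (y : G) :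
    stepLaw (chain hu) k x y ≤
      if y ∈ LS.dsc S n k x then ENNReal.ofReal (u (n + k) y / u n x) else 0 := by
  induction k generalizing n x with
  | zero =>
    show PMF.pure x y ≤ _
    rw [PMF.pure_apply]
    by_cases hy : y = x
    · subst hy
      have h1 : y ∈ LS.dsc S n 0 y := mem_dsc.2 ⟨hx, rfl⟩
      rw [if_pos rfl, if_pos h1]
      show 1 ≤ ENNReal.ofReal (u n y / u n y)
      rw [div_self h.ne', ENNReal.ofReal_one]
    · rw [if_neg hy]
      exact bot_le
  | succ k ih =>
    show (chain hu x).bind (fun z => stepLaw (chain hu) k z) y ≤ _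
    rw [PMF.bind_apply]
    -- the only possible intermediate point
    set z0 := (par S)^[k] y with hz0
    have hterm : ∀ z, chain hu x z * stepLaw (chain hu) k z y ≤
        if z = z0 then (if y ∈ LS.dsc S n (k + 1) x then ENNReal.ofReal (u (n + (k + 1)) y / u n x) else 0)
        else 0 := by
      intro z
      rw [chain_apply hu hx h]
      by_cases hz : z ∈ LS.dsc S n 1 x
      · rw [if_pos hz]
        have hz' := mem_dsc.1 hz
        rcases (hu.nonneg _ z hz'.1).eq_or_lt with h0 | h0
        · rw [← h0, zero_div, ENNReal.ofReal_zero, zero_mul]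
          exact bot_le
        · have h1 := ih hz'.1 h0
          by_cases hy : y ∈ LS.dsc S (n + 1) k z
          · rw [if_pos hy] at h1
            have hy' := mem_dsc.1 hy
            have e : n + 1 + k = n + (k + 1) := by omega
            have hzz : z = z0 := hy'.2.symm
            have hy2 : y ∈ LS.dsc S n (k + 1) x := by
              rw [mem_dsc, ← e]
              refine ⟨hy'.1, ?_⟩
              rw [Function.iterate_succ_apply', hy'.2]
              exact hz'.2
            rw [if_pos hzz, if_pos hy2]
            rw [e] at h1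
            calc ENNReal.ofReal (u (n + 1) z / u n x) * stepLaw (chain hu) k z y
                ≤ ENNReal.ofReal (u (n + 1) z / u n x) * ENNReal.ofReal (u (n + (k + 1)) y / u (n + 1) z) :=
                  mul_le_mul_right h1 _
              _ = ENNReal.ofReal (u (n + (k + 1)) y / u n x) := by
                  rw [← ENNReal.ofReal_mul (div_nonneg h0.le h.le)]
                  congr 1
                  field_simp
          · rw [if_neg hy] at h1
            rw [le_bot_iff.1 h1]
            simp
      · rw [if_neg hz, zero_mul]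
        exact bot_le
    refine (ENNReal.tsum_le_tsum hterm).trans ?_
    rw [tsum_ite_eq]

theorem chain_support (hu : IsFlow S u) {n : ℕ} {x : G} (hx : x ∈ sph S n) (h : 0 < u n x) {y : G}
    (hy : y ∈ (chain hu x).support) : y ∈ sph S (n + 1) ∧ 0 < u (n + 1) y ∧ y * x⁻¹ ∈ S := by
  rw [PMF.mem_support_iff, chain_apply hu hx h] at hy
  by_cases h1 : y ∈ LS.dsc S n 1 x
  · rw [if_pos h1] at hy
    have h2 := mem_dsc.1 h1
    refine ⟨h2.1, ?_, ?_⟩
    · rcases (hu.nonneg _ y h2.1).eq_or_lt with h0 | h0
      · rw [← h0, zero_div, ENNReal.ofReal_zero] at hy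
        exact absurd rfl hy
      · exact h0
    · obtain ⟨_, s, hs, h3⟩ := par_spec h2.1
      have h4 : par S y = x := h2.2
      rw [h4] at h3
      rw [h3, mul_inv_cancel_right]
      exact hs
  · rw [if_neg h1] at hy
    exact absurd rfl hy

end Pool.Agent.MP_587aff_al.LS
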