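import Pool.Agent.MP_587aff_al.LS.Sph

/-! # The limit flow (MP_587aff_al, LogSpreading) -/

set_option autoImplicit false

open scoped Pointwise
open Filter Topology

namespace Pool.Agent.MP_587aff_al.LS

/-- record times -/
theorem exists_record (a : ℕ → ℝ) (ha : ∀ n, 1 ≤ a n) :
    ∃ W : ℝ, 1 ≤ W ∧ ∃ᶠ m in atTop, ∀ k ≤ m, a k ≤ W * a m := by
  by_cases hb : ∃ C : ℝ, ∀ k, a k ≤ C
  · obtain ⟨C, hC⟩ := hb
    have hC1 : 1 ≤ C := (ha 0).trans (hC 0)
    refine ⟨C, hC1, ?_⟩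
    refine (Eventually.of_forall fun m k _ => ?_).frequently
    calc a k ≤ C * 1 := by rw [mul_one]; exact hC k
      _ ≤ C * a m := mul_le_mul_of_nonneg_left (ha m) (by linarith)
  · push Not at hb
    refine ⟨1, le_rfl, ?_⟩
    rw [frequently_atTop]
    intro N
    obtain ⟨i, _, hi⟩ := Finset.exists_max_image (Finset.range (N + 1)) a ⟨0, Finset.mem_range.2 (by omega)⟩
    obtain ⟨M, hM⟩ := hb (a i)
    obtain ⟨m, hm1, hm2⟩ := Finset.exists_max_image (Finset.range (M + 1)) a ⟨0, Finset.mem_range.2 (by omega)⟩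
    refine ⟨m, ?_, ?_⟩
    · by_contra hc
      push Not at hc
      have h1 := hi m (Finset.mem_range.2 (by omega))
      have h2 := hm2 M (Finset.mem_range.2 (by omega))
      linarith
    · intro k hk
      rw [one_mul]
      exact hm2 k (Finset.mem_range.2 (by have := Finset.mem_range.1 hm1; omega))

variable {G : Type*} [Group G] [DecidableEq G]

/-- the limit flow -/
theorem exists_flow (S : Finset G) (lam : ℝ) (hlam : 0 < lam) (h : ∀ n, lam ^ n ≤ ((sph S n).card : ℝ))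
    (τ : ℕ → ℝ) (hτ : ∀ n, 0 < τ n)
    (hsum : ∀ m, ∑ n ∈ Finset.range (m + 1), ((sph S n).card : ℝ) * τ n ≤ 1 / 2) :
    ∃ (W : ℝ) (u : ℕ → G → ℝ), 1 ≤ W ∧ 1 / 2 ≤ u 0 1 ∧
      (∀ n, ∀ x ∈ sph S n, 0 ≤ u n x ∧ u n x ≤ W * (lam ^ n)⁻¹) ∧
      (∀ n, ∀ x ∈ sph S n, u n x = 0 ∨ τ n ≤ u n x) ∧
      (∀ n, ∀ x ∈ sph S n, u n x = ∑ y ∈ (sph S (n + 1)).filter (fun y => par S y = x), u (n + 1) y) := by
  classical
  have hpos : ∀ n, (0 : ℝ) < (sph S n).card := fun n => (pow_pos hlam n).trans_le (h n)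
  obtain ⟨W, hW, hrec⟩ := exists_record (fun n => ((sph S n).card : ℝ) / lam ^ n) fun n => by
    rw [one_le_div (pow_pos hlam n)]
    exact h n
  choose Z hZ hZ1 hZ2 using fun m => exists_prune m τ hτ (hsum m)
  let P : Set ℕ := {m | ∀ k ≤ m, ((sph S k).card : ℝ) / lam ^ k ≤ W * (((sph S m).card : ℝ) / lam ^ m)}
  have : (atTop ⊓ 𝓟 P).NeBot := frequently_iff_neBot.1 hrec
  let 𝒰 := Ultrafilter.of (atTop ⊓ 𝓟 P)
  have hU : (𝒰 : Filter ℕ) ≤ atTop ⊓ 𝓟 P := Ultrafilter.of_le _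
  have hUtop : (𝒰 : Filter ℕ) ≤ atTop := hU.trans inf_le_left
  have hUP : ∀ᶠ m in (𝒰 : Filter ℕ), m ∈ P := hU (mem_inf_of_right (mem_principal_self P))
  let U : ℕ → ℕ → G → ℝ := fun m n x => (cnt S m n (Z m) x : ℝ) / (sph S m).card
  have hU01 : ∀ m n x, U m n x ∈ Set.Icc (0 : ℝ) 1 := by
    intro m n x
    refine ⟨div_nonneg (Nat.cast_nonneg _) (hpos m).le, ?_⟩
    show (cnt S m n (Z m) x : ℝ) / (sph S m).card ≤ 1
    rw [div_le_one (hpos m)]
    have : cnt S m n (Z m) x ≤ (sph S m).card :=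
      (Finset.card_filter_le _ _).trans (Finset.card_le_card (hZ m))
    exact_mod_cast this
  have hlim : ∀ n x, ∃ l : ℝ, Tendsto (fun m => U m n x) 𝒰 (𝓝 l) := by
    intro n x
    obtain ⟨l, _, hl⟩ := (isCompact_Icc (a := (0 : ℝ)) (b := 1)).ultrafilter_le_nhds
      (𝒰.map fun m => U m n x) (by
        rw [le_principal_iff]
        exact Filter.mem_map.2 (Filter.univ_mem' fun m => hU01 m n x))
    exact ⟨l, hl⟩
  choose u hu using hlim
  refine ⟨W, u, hW, ?_, ?_, ?_, ?_⟩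
  · refine ge_of_tendsto (hu 0 1) (Eventually.of_forall fun m => ?_)
    show 1 / 2 ≤ (cnt S m 0 (Z m) 1 : ℝ) / (sph S m).card
    rw [cnt_root (hZ m), le_div_iff₀ (hpos m)]
    have := hZ1 m
    linarith
  · intro n x hx
    refine ⟨ge_of_tendsto (hu n x) (Eventually.of_forall fun m => (hU01 m n x).1), ?_⟩
    refine le_of_tendsto (hu n x) ?_
    filter_upwards [hUP, hUtop (eventually_ge_atTop n)] with m hm hnm
    show (cnt S m n (Z m) x : ℝ) / (sph S m).card ≤ _
    have h1 : (cnt S m n (Z m) x : ℝ) ≤ (sph S (m - n)).card := by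
      exact_mod_cast cnt_le hnm (hZ m) x hx
    have h2 := hm (m - n) (Nat.sub_le m n)
    rw [div_le_iff₀ (hpos m)]
    refine h1.trans ?_
    rw [div_le_iff₀ (pow_pos hlam _)] at h2
    refine h2.trans (le_of_eq ?_)
    have h3 : lam ^ m = lam ^ (m - n) * lam ^ n := by rw [← pow_add, Nat.sub_add_cancel hnm]
    have h4 := pow_pos hlam (m - n)
    have h5 := pow_pos hlam n
    rw [h3]
    field_simp
  · intro n x hx
    have hcl : IsClosed ({0} ∪ Set.Ici (τ n) : Set ℝ) := isClosed_singleton.union isClosed_Ici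
    have h1 : u n x ∈ ({0} ∪ Set.Ici (τ n) : Set ℝ) := by
      refine hcl.mem_of_tendsto (hu n x) ?_
      filter_upwards [hUtop (eventually_ge_atTop n)] with m hnm
      rcases hZ2 m n hnm x hx with h2 | h2
      · left
        show (cnt S m n (Z m) x : ℝ) / (sph S m).card = 0
        rw [h2]
        simp
      · right
        show τ n ≤ (cnt S m n (Z m) x : ℝ) / (sph S m).card
        rw [le_div_iff₀ (hpos m)]
        exact h2
    exact h1
  · intro n x _
    refine tendsto_nhds_unique (hu n x) ?_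
    have h1 : Tendsto (fun m => ∑ y ∈ (sph S (n + 1)).filter (fun y => par S y = x), U m (n + 1) y) 𝒰
        (𝓝 (∑ y ∈ (sph S (n + 1)).filter (fun y => par S y = x), u (n + 1) y)) :=
      tendsto_finset_sum _ fun y _ => hu (n + 1) y
    refine h1.congr' ?_
    filter_upwards [hUtop (eventually_gt_atTop n)] with m hnm
    show ∑ y ∈ _, (cnt S m (n + 1) (Z m) y : ℝ) / (sph S m).card = (cnt S m n (Z m) x : ℝ) / (sph S m).card
    rw [cnt_flow hnm (hZ m) x, ← Finset.sum_div]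
    push_cast
    rfl

end Pool.Agent.MP_587aff_al.LS
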