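import Pool.Agent.MP_587aff_al.LS.Sph

/-! # The growth rate (MP_587aff_al, LogSpreading) -/

set_option autoImplicit false

open scoped Pointwise
open Filter Topology

namespace Pool.Agent.MP_587aff_al.LS

variable {G : Type*} [Group G] [DecidableEq G] (S : Finset G)

theorem pow_card_le (n : ℕ) :
    ((S ^ n).card : ℝ) ≤ ∑ j ∈ Finset.range (n + 1), ((sph S j).card : ℝ) := by
  classical
  have h : S ^ n ⊆ (Finset.range (n + 1)).biUnion fun j => sph S j := by
    intro x hx
    have hex : ∃ j, x ∈ S ^ j := ⟨n, hx⟩
    rw [Finset.mem_biUnion]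
    refine ⟨Nat.find hex, ?_, ?_⟩
    · rw [Finset.mem_range]
      have := Nat.find_min' hex hx
      omega
    · rw [mem_sph]
      exact ⟨Nat.find_spec hex, fun j hj => Nat.find_min hex hj⟩
  have h1 := (Finset.card_le_card h).trans Finset.card_biUnion_le
  exact_mod_cast h1

variable {S}

/-- exponential growth -/
theorem growth (r : ℝ) (hr : 1 < r) (hS : ∃ᶠ n in atTop, r ^ n < ((S ^ n).card : ℝ)) :
    ∃ lam : ℝ, 1 < lam ∧ (∀ n, lam ^ n ≤ ((sph S n).card : ℝ)) ∧
      Tendsto (fun n : ℕ => ((sph S n).card : ℝ) ^ ((1 : ℝ) / n)) atTop (𝓝 lam) := by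
  have hr0 : 0 < r := by linarith
  -- spheres are nonempty
  have hpos : ∀ n, 0 < (sph S n).card := by
    intro n
    by_contra hc
    have h0 : (sph S n).card = 0 := by omega
    have h1 : ∀ m, n ≤ m → (sph S m).card = 0 := by
      intro m hm
      have h2 := card_sph_add (S := S) n (m - n)
      rw [Nat.add_sub_cancel' hm, h0, zero_mul] at h2
      omega
    have h2 : ∀ m, ((S ^ m).card : ℝ) ≤ ∑ j ∈ Finset.range (n + 1), ((sph S j).card : ℝ) := by
      intro m
      refine (pow_card_le S m).trans ?_
      have h3 : ∑ j ∈ Finset.range (m + 1), ((sph S j).card : ℝ) ≤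
          ∑ j ∈ Finset.range (m + 1 + (n + 1)), if j < n + 1 then ((sph S j).card : ℝ) else 0 := by
        refine (Finset.sum_le_sum fun j _ => ?_).trans (Finset.sum_le_sum_of_subset_of_nonneg
          (Finset.range_mono (by omega : m + 1 ≤ m + 1 + (n + 1))) fun j _ _ => ?_)
        · split_ifs with h
          · exact le_rfl
          · rw [h1 j (by omega)]
            simp
        · split_ifs
          · exact Nat.cast_nonneg _
          · exact le_rfl
      refine h3.trans (le_of_eq ?_)
      rw [← Finset.sum_filter]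
      refine Finset.sum_congr ?_ fun _ _ => rfl
      ext j
      rw [Finset.mem_filter, Finset.mem_range, Finset.mem_range]
      omega
    have h3 : ∀ᶠ m in atTop, ∑ j ∈ Finset.range (n + 1), ((sph S j).card : ℝ) < r ^ m :=
      (tendsto_pow_atTop_atTop_of_one_lt hr).eventually_gt_atTop _
    obtain ⟨m, hm1, hm2⟩ := (hS.and_eventually h3).exists
    linarith [h2 m]
  have hpos' : ∀ n, (0 : ℝ) < (sph S n).card := fun n => by exact_mod_cast hpos n
  let v : ℕ → ℝ := fun n => Real.log ((sph S n).card : ℝ)
  have hv0 : ∀ n, 0 ≤ v n := fun n => Real.log_nonneg (by exact_mod_cast hpos n)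
  have hsub : Subadditive v := by
    intro m n
    show Real.log _ ≤ Real.log _ + Real.log _
    rw [← Real.log_mul (hpos' m).ne' (hpos' n).ne']
    refine Real.log_le_log (hpos' _) ?_
    exact_mod_cast card_sph_add m n
  have hbdd : BddBelow (Set.range fun n => v n / n) := by
    refine ⟨0, ?_⟩
    rintro _ ⟨n, rfl⟩
    exact div_nonneg (hv0 n) (Nat.cast_nonneg n)
  have hlim := hsub.tendsto_lim hbdd
  have hle : ∀ n : ℕ, n ≠ 0 → hsub.lim ≤ v n / n := fun n hn => hsub.lim_le_div hbdd hn
  have hlimpos : 0 < hsub.lim := by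
    by_contra hc
    push Not at hc
    set ε : ℝ := Real.log r / 2 with hε
    have hlr : 0 < Real.log r := Real.log_pos hr
    have hεpos : 0 < ε := by rw [hε]; linarith
    have h1 : ∀ᶠ n : ℕ in atTop, v n / n < ε := hlim.eventually_lt_const (by linarith)
    obtain ⟨N, hN⟩ := eventually_atTop.1 h1
    -- a bound for all spheres
    obtain ⟨C, hC⟩ : ∃ C : ℝ, 1 ≤ C ∧ ∀ n, ((sph S n).card : ℝ) ≤ C * Real.exp (ε * n) := by
      refine ⟨1 + ∑ j ∈ Finset.range (N + 1), ((sph S j).card : ℝ), ?_, ?_⟩
      · have : 0 ≤ ∑ j ∈ Finset.range (N + 1), ((sph S j).card : ℝ) :=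
          Finset.sum_nonneg fun j _ => Nat.cast_nonneg _
        linarith
      · intro n
        have hnn : 0 ≤ ∑ j ∈ Finset.range (N + 1), ((sph S j).card : ℝ) :=
          Finset.sum_nonneg fun j _ => Nat.cast_nonneg _
        have hexp : 1 ≤ Real.exp (ε * n) := Real.one_le_exp (mul_nonneg hεpos.le (Nat.cast_nonneg n))
        by_cases hn : n < N + 1
        · have h2 : ((sph S n).card : ℝ) ≤ ∑ j ∈ Finset.range (N + 1), ((sph S j).card : ℝ) :=
            Finset.single_le_sum (f := fun j => ((sph S j).card : ℝ)) (fun j _ => Nat.cast_nonneg _)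
              (Finset.mem_range.2 hn)
          nlinarith
        · have hn0 : 0 < n := by omega
          have h2 := hN n (by omega)
          have hn' : (0 : ℝ) < n := by exact_mod_cast hn0
          rw [div_lt_iff₀ hn'] at h2
          have h3 : ((sph S n).card : ℝ) ≤ Real.exp (ε * n) := by
            rw [← Real.log_le_iff_le_exp (hpos' n)]
            exact h2.le
          nlinarith
    have h2 : ∀ n : ℕ, ((S ^ n).card : ℝ) ≤ (n + 1) * C * Real.exp (ε * n) := by
      intro n
      refine (pow_card_le S n).trans ?_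
      calc ∑ j ∈ Finset.range (n + 1), ((sph S j).card : ℝ)
          ≤ ∑ j ∈ Finset.range (n + 1), C * Real.exp (ε * n) := by
            refine Finset.sum_le_sum fun j hj => (hC.2 j).trans ?_
            refine mul_le_mul_of_nonneg_left ?_ (by linarith [hC.1])
            rw [Real.exp_le_exp]
            refine mul_le_mul_of_nonneg_left ?_ hεpos.le
            have := Finset.mem_range.1 hj
            exact_mod_cast (by omega : j ≤ n)
        _ = (n + 1) * C * Real.exp (ε * n) := by
            rw [Finset.sum_const, Finset.card_range, nsmul_eq_mul]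
            push_cast
            ring
    have h3 : ∀ᶠ n : ℕ in atTop, (n + 1) * C * Real.exp (ε * n) < r ^ n := by
      have h4 : Tendsto (fun n : ℕ => (((n : ℝ) + 1) * C) / Real.exp (ε * n)) atTop (𝓝 0) := by
        have h5 : Tendsto (fun x : ℝ => (C / ε) * ((ε * x) ^ 1 / Real.exp (ε * x)) + C * (Real.exp (ε * x))⁻¹)
            atTop (𝓝 ((C / ε) * 0 + C * 0)) := by
          have h6 : Tendsto (fun x : ℝ => ε * x) atTop atTop := tendsto_id.const_mul_atTop hεpos
          refine Tendsto.add (Tendsto.const_mul _ ?_) (Tendsto.const_mul _ ?_)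
          · have h7 := Real.tendsto_pow_mul_exp_neg_atTop_nhds_zero 1
            have h8 := h7.comp h6
            refine h8.congr fun x => ?_
            show (ε * x) ^ 1 * Real.exp (-(ε * x)) = _
            rw [Real.exp_neg]
            rfl
          · exact tendsto_inv_atTop_zero.comp (Real.tendsto_exp_atTop.comp h6)
        have h9 := h5.comp (tendsto_natCast_atTop_atTop (R := ℝ))
        rw [mul_zero, mul_zero, add_zero] at h9
        refine h9.congr fun n => ?_
        show C / ε * ((ε * (n : ℝ)) ^ 1 / Real.exp (ε * n)) + C * (Real.exp (ε * n))⁻¹ = _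
        have := Real.exp_pos (ε * n)
        field_simp
      filter_upwards [h4.eventually_lt_const (by norm_num : (0 : ℝ) < 1)] with n hn
      rw [div_lt_one (Real.exp_pos _)] at hn
      have h6 : r ^ n = Real.exp (ε * n) * Real.exp (ε * n) := by
        rw [← Real.exp_add, ← Real.exp_log (pow_pos hr0 n), Real.log_pow]
        congr 1
        rw [hε]
        ring
      rw [h6]
      exact mul_lt_mul_of_pos_right hn (Real.exp_pos _)
    obtain ⟨n, hn1, hn2⟩ := (hS.and_eventually h3).exists
    linarith [h2 n]
  refine ⟨Real.exp hsub.lim, ?_, ?_, ?_⟩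
  · exact Real.one_lt_exp_iff.2 hlimpos
  · intro n
    rcases Nat.eq_zero_or_pos n with rfl | hn
    · rw [pow_zero]
      exact_mod_cast hpos 0
    · rw [← Real.exp_nat_mul, ← Real.le_log_iff_exp_le (hpos' n)]
      have h1 := hle n hn.ne'
      have hn' : (0 : ℝ) < n := by exact_mod_cast hn
      rw [le_div_iff₀ hn'] at h1
      show _ ≤ v n
      linarith
  · have h1 := (Real.continuous_exp.tendsto _).comp hlim
    refine h1.congr fun n => ?_
    show Real.exp (v n / n) = _
    rw [Real.rpow_def_of_pos (hpos' n)]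
    congr 1
    ring

end Pool.Agent.MP_587aff_al.LS
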