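import Mathlib

/-! # Spheres, a geodesic spanning tree, pruning (MP_587aff_al, LogSpreading) -/

set_option autoImplicit false

open scoped Pointwise

namespace Pool.Agent.MP_587aff_al.LS

variable {G : Type*} [Group G] [DecidableEq G] (S : Finset G)

/-- the elements of length exactly `n` -/
def sph (n : ℕ) : Finset G := (S ^ n).filter fun x => ∀ j < n, x ∉ S ^ j

variable {S}

theorem mem_sph {n : ℕ} {x : G} : x ∈ sph S n ↔ x ∈ S ^ n ∧ ∀ j < n, x ∉ S ^ j := by
  unfold sph
  rw [Finset.mem_filter]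

theorem sph_unique {n m : ℕ} {x : G} (h : x ∈ sph S n) (h' : x ∈ sph S m) : n = m := by
  rw [mem_sph] at h h'
  rcases lt_trichotomy n m with h1 | h1 | h1
  · exact absurd h.1 (h'.2 n h1)
  · exact h1
  · exact absurd h'.1 (h.2 m h1)

theorem one_mem_sph : (1 : G) ∈ sph S 0 := by
  rw [mem_sph]
  refine ⟨?_, fun j hj => absurd hj (Nat.not_lt_zero j)⟩
  rw [pow_zero]
  exact Finset.mem_one.2 rfl

theorem sph_zero : sph S 0 = {1} := by
  ext x
  rw [mem_sph, pow_zero, Finset.mem_singleton, Finset.mem_one]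
  constructor
  · exact fun h => h.1
  · exact fun h => ⟨h, fun j hj => absurd hj (Nat.not_lt_zero j)⟩

/-- a sphere element splits -/
theorem sph_split {n m : ℕ} {x : G} (h : x ∈ sph S (n + m)) :
    ∃ y ∈ sph S n, ∃ z ∈ sph S m, x = z * y := by
  rw [mem_sph] at h
  have h1 := h.1
  rw [add_comm, pow_add, Finset.mem_mul] at h1
  obtain ⟨z, hz, y, hy, rfl⟩ := h1
  refine ⟨y, ?_, z, ?_, rfl⟩
  · rw [mem_sph]
    refine ⟨hy, fun j hj hc => h.2 (m + j) (by omega) ?_⟩
    rw [pow_add]
    exact Finset.mul_mem_mul hz hc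
  · rw [mem_sph]
    refine ⟨hz, fun j hj hc => h.2 (j + n) (by omega) ?_⟩
    rw [pow_add]
    exact Finset.mul_mem_mul hc hy

theorem sph_of_mul {n m : ℕ} {z y : G} (hz : z ∈ S ^ m) (hy : y ∈ S ^ n) (h : z * y ∈ sph S (n + m)) :
    z ∈ sph S m := by
  rw [mem_sph] at h ⊢
  refine ⟨hz, fun j hj hc => h.2 (j + n) (by omega) ?_⟩
  rw [pow_add]
  exact Finset.mul_mem_mul hc hy

theorem card_sph_add (n m : ℕ) : (sph S (n + m)).card ≤ (sph S n).card * (sph S m).card := by
  classical
  have h : sph S (n + m) ⊆ sph S m * sph S n := by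
    intro x hx
    obtain ⟨y, hy, z, hz, rfl⟩ := sph_split hx
    exact Finset.mul_mem_mul hz hy
  calc (sph S (n + m)).card ≤ (sph S m * sph S n).card := Finset.card_le_card h
    _ ≤ (sph S m).card * (sph S n).card := Finset.card_mul_le
    _ = _ := Nat.mul_comm _ _

open Classical in
/-- the parent in a geodesic spanning tree -/
noncomputable def par (S : Finset G) (x : G) : G :=
  if h : ∃ y : G, ∃ n : ℕ, x ∈ sph S (n + 1) ∧ y ∈ sph S n ∧ ∃ s ∈ S, x = s * y then h.choose else x

theorem par_spec {n : ℕ} {x : G} (hx : x ∈ sph S (n + 1)) :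
    par S x ∈ sph S n ∧ ∃ s ∈ S, x = s * par S x := by
  have h : ∃ y : G, ∃ n : ℕ, x ∈ sph S (n + 1) ∧ y ∈ sph S n ∧ ∃ s ∈ S, x = s * y := by
    obtain ⟨y, hy, z, hz, hyz⟩ := sph_split hx
    refine ⟨y, n, hx, hy, z, ?_, hyz⟩
    have := (mem_sph.1 hz).1
    rwa [pow_one] at this
  unfold par
  rw [dif_pos h]
  obtain ⟨n', h1, h2, h3⟩ := h.choose_spec
  have := sph_unique hx h1
  obtain rfl : n = n' := by omega
  exact ⟨h2, h3⟩

theorem iter_par {k n : ℕ} {x : G} (hx : x ∈ sph S (n + k)) :
    (par S)^[k] x ∈ sph S n ∧ ∃ g ∈ S ^ k, x = g * (par S)^[k] x := by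
  induction k generalizing x with
  | zero =>
    refine ⟨hx, 1, ?_, ?_⟩
    · rw [pow_zero]
      exact Finset.mem_one.2 rfl
    · rw [one_mul]
      rfl
  | succ k ih =>
    obtain ⟨h1, s, hs, h2⟩ := par_spec (n := n + k) hx
    obtain ⟨h3, g, hg, h4⟩ := ih h1
    rw [Function.iterate_succ_apply]
    refine ⟨h3, s * g, ?_, ?_⟩
    · rw [pow_succ']
      exact Finset.mul_mem_mul hs hg
    · rw [mul_assoc, ← h4]
      exact h2

/-- number of the elements of `Z ⊆ sph m` which descend from `x`, an element of level `n` -/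
noncomputable def cnt (S : Finset G) (m n : ℕ) (Z : Finset G) (x : G) : ℕ :=
  (Z.filter fun z => (par S)^[m - n] z = x).card

theorem cnt_le {m n : ℕ} (hnm : n ≤ m) {Z : Finset G} (hZ : Z ⊆ sph S m) (x : G) (hx : x ∈ sph S n) :
    cnt S m n Z x ≤ (sph S (m - n)).card := by
  unfold cnt
  refine Finset.card_le_card_of_injOn (fun z => z * x⁻¹) ?_ ?_
  · intro z hz
    rw [Finset.mem_coe, Finset.mem_filter] at hz
    have h1 : z ∈ sph S (n + (m - n)) := by
      rw [Nat.add_sub_cancel' hnm]
      exact hZ hz.1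
    obtain ⟨h2, g, hg, h3⟩ := iter_par h1
    rw [hz.2] at h3
    rw [Finset.mem_coe]
    have h4 : z * x⁻¹ = g := by
      conv_lhs => rw [h3]
      group
    show z * x⁻¹ ∈ _
    rw [h4]
    refine sph_of_mul hg (mem_sph.1 hx).1 ?_
    rw [← h3]
    exact h1
  · intro z _ z' _ h
    exact mul_right_cancel h

theorem cnt_flow {m n : ℕ} (hnm : n < m) {Z : Finset G} (hZ : Z ⊆ sph S m) (x : G) :
    cnt S m n Z x = ∑ y ∈ (sph S (n + 1)).filter (fun y => par S y = x), cnt S m (n + 1) Z y := by
  unfold cnt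
  rw [Finset.card_eq_sum_card_fiberwise (f := fun z => (par S)^[m - (n + 1)] z)
    (t := (sph S (n + 1)).filter (fun y => par S y = x))]
  · refine Finset.sum_congr rfl fun y hy => ?_
    congr 1
    ext z
    rw [Finset.mem_filter, Finset.mem_filter, Finset.mem_filter]
    constructor
    · exact fun h => ⟨h.1.1, h.2⟩
    · intro h
      refine ⟨⟨h.1, ?_⟩, h.2⟩
      have h1 : m - n = (m - (n + 1)) + 1 := by omega
      rw [h1, Function.iterate_succ_apply', h.2]
      exact (Finset.mem_filter.1 hy).2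
  · intro z hz
    rw [Finset.mem_coe, Finset.mem_filter] at hz
    rw [Finset.mem_coe, Finset.mem_filter]
    have h1 : m - n = (m - (n + 1)) + 1 := by omega
    refine ⟨?_, ?_⟩
    · have h2 : z ∈ sph S ((n + 1) + (m - (n + 1))) := by
        rw [Nat.add_sub_cancel' hnm]
        exact hZ hz.1
      exact (iter_par h2).1
    · have h3 := hz.2
      rw [h1, Function.iterate_succ_apply'] at h3
      exact h3

theorem cnt_mono {m n : ℕ} {Z Z' : Finset G} (h : Z' ⊆ Z) (x : G) : cnt S m n Z' x ≤ cnt S m n Z x :=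
  Finset.card_le_card (Finset.filter_subset_filter _ h)

theorem cnt_root {m : ℕ} {Z : Finset G} (hZ : Z ⊆ sph S m) : cnt S m 0 Z 1 = Z.card := by
  unfold cnt
  rw [Finset.filter_true_of_mem]
  intro z hz
  have h2 : z ∈ sph S (0 + m) := by
    rw [zero_add]
    exact hZ hz
  have h3 := (iter_par h2).1
  rw [sph_zero, Finset.mem_singleton] at h3
  exact h3

/-- **Pruning.** If `∑ σ(n) τ(n) ≤ 1/2` there is a set `Z` of at least half of the elements of
length `m` such that every `x` of length `n ≤ m` has either no descendant in `Z` or at least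
`τ(n) σ(m)` of them. -/
theorem exists_prune (m : ℕ) (τ : ℕ → ℝ) (hτ : ∀ n, 0 < τ n)
    (hsum : ∑ n ∈ Finset.range (m + 1), ((sph S n).card : ℝ) * τ n ≤ 1 / 2) :
    ∃ Z ⊆ sph S m, ((sph S m).card : ℝ) / 2 ≤ Z.card ∧
      ∀ n ≤ m, ∀ x ∈ sph S n, cnt S m n Z x = 0 ∨ τ n * (sph S m).card ≤ cnt S m n Z x := by
  classical
  rcases Nat.eq_zero_or_pos (sph S m).card with h0 | h0
  · have h1 : sph S m = ∅ := Finset.card_eq_zero.1 h0
    refine ⟨∅, Finset.empty_subset _, ?_, ?_⟩
    · rw [h0]
      simp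
    · intro n _ x _
      left
      unfold cnt
      simp
  set M : ℝ := ((sph S m).card : ℝ) with hM
  have hMpos : 0 < M := by
    rw [hM]
    exact_mod_cast h0
  let dead : Finset G → ℝ := fun Z => ∑ n ∈ Finset.range (m + 1), ∑ x ∈ sph S n,
    if cnt S m n Z x = 0 then τ n * M else 0
  let Φ : Finset G → ℝ := fun Z => (Z.card : ℝ) + dead Z
  have hdead0 : ∀ Z, 0 ≤ dead Z := fun Z => Finset.sum_nonneg fun n _ => Finset.sum_nonneg fun x _ => by
    split_ifs
    · exact mul_nonneg (hτ n).le hMpos.le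
    · exact le_rfl
  have hdead1 : ∀ Z, dead Z ≤ M / 2 := by
    intro Z
    calc dead Z ≤ ∑ n ∈ Finset.range (m + 1), ∑ x ∈ sph S n, τ n * M := by
          refine Finset.sum_le_sum fun n _ => Finset.sum_le_sum fun x _ => ?_
          split_ifs
          · exact le_rfl
          · exact mul_nonneg (hτ n).le hMpos.le
      _ = (∑ n ∈ Finset.range (m + 1), ((sph S n).card : ℝ) * τ n) * M := by
          rw [Finset.sum_mul]
          refine Finset.sum_congr rfl fun n _ => ?_
          rw [Finset.sum_const, nsmul_eq_mul]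
          ring
      _ ≤ 1 / 2 * M := mul_le_mul_of_nonneg_right hsum hMpos.le
      _ = M / 2 := by ring
  obtain ⟨Z, hZ, hmax⟩ := Finset.exists_max_image (sph S m).powerset Φ
    ⟨sph S m, Finset.mem_powerset_self _⟩
  rw [Finset.mem_powerset] at hZ
  refine ⟨Z, hZ, ?_, ?_⟩
  · have h1 := hmax (sph S m) (Finset.mem_powerset_self _)
    have h2 : M ≤ Φ (sph S m) := by
      show M ≤ ((sph S m).card : ℝ) + dead _
      have := hdead0 (sph S m)
      linarith
    have h3 : Φ Z = (Z.card : ℝ) + dead Z := rfl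
    have h4 := hdead1 Z
    linarith
  · intro n hn x hx
    by_contra hcon
    push Not at hcon
    obtain ⟨hc1, hc2⟩ := hcon
    let Z' := Z.filter fun z => ¬ ((par S)^[m - n] z = x)
    have hZ'Z : Z' ⊆ Z := Finset.filter_subset _ _
    have h1 := hmax Z' (Finset.mem_powerset.2 (hZ'Z.trans hZ))
    have hcard : (Z'.card : ℝ) + cnt S m n Z x = Z.card := by
      have := Finset.card_filter_add_card_filter_not (s := Z) (fun z => (par S)^[m - n] z = x)
      unfold cnt
      rw [add_comm]
      exact_mod_cast this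
    have hx0 : cnt S m n Z' x = 0 := by
      unfold cnt
      rw [Finset.card_eq_zero, Finset.filter_eq_empty_iff]
      intro z hz
      exact (Finset.mem_filter.1 hz).2
    have hdead : dead Z + τ n * M ≤ dead Z' := by
      have h2 : ∀ k ∈ Finset.range (m + 1), ∀ y ∈ sph S k,
          (if cnt S m k Z y = 0 then τ k * M else 0) + (if k = n ∧ y = x then τ n * M else 0) ≤
          (if cnt S m k Z' y = 0 then τ k * M else 0) := by
        intro k _ y _
        have hpos : 0 ≤ τ k * M := mul_nonneg (hτ k).le hMpos.le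
        by_cases hky : k = n ∧ y = x
        · obtain ⟨rfl, rfl⟩ := hky
          rw [if_neg hc1, if_pos ⟨rfl, rfl⟩, if_pos hx0, zero_add]
        · rw [if_neg hky, add_zero]
          by_cases h3 : cnt S m k Z y = 0
          · have h4 : cnt S m k Z' y = 0 := Nat.le_zero.1 ((cnt_mono hZ'Z y).trans h3.le)
            rw [if_pos h3, if_pos h4]
          · rw [if_neg h3]
            split_ifs
            · exact hpos
            · exact le_rfl
      have h3 : dead Z + ∑ k ∈ Finset.range (m + 1), ∑ y ∈ sph S k,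
          (if k = n ∧ y = x then τ n * M else 0) ≤ dead Z' := by
        show (∑ n ∈ Finset.range (m + 1), ∑ x ∈ sph S n, _) + _ ≤ _
        rw [← Finset.sum_add_distrib]
        refine Finset.sum_le_sum fun k hk => ?_
        rw [← Finset.sum_add_distrib]
        exact Finset.sum_le_sum fun y hy => h2 k hk y hy
      have h4 : ∑ k ∈ Finset.range (m + 1), ∑ y ∈ sph S k,
          (if k = n ∧ y = x then τ n * M else 0) = τ n * M := by
        rw [Finset.sum_eq_single_of_mem n (Finset.mem_range.2 (by omega)),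
          Finset.sum_eq_single_of_mem x hx, if_pos ⟨rfl, rfl⟩]
        · intro y _ hy
          rw [if_neg fun h => hy h.2]
        · intro k _ hk
          refine Finset.sum_eq_zero fun y _ => ?_
          rw [if_neg fun h => hk h.1]
      rw [h4] at h3
      exact h3
    have h5 : Φ Z' = (Z'.card : ℝ) + dead Z' := rfl
    have h6 : Φ Z = (Z.card : ℝ) + dead Z := rfl
    linarith

end Pool.Agent.MP_587aff_al.LS
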