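import Pool.Agent.MP_587aff_al.LS.Chain

/-! # The binary tree with logarithmic edges (MP_587aff_al, LogSpreading) -/

set_option autoImplicit false

open scoped Pointwise
open Filter Topology

namespace Pool.Agent.MP_587aff_al.LS

variable {G : Type*} [Group G] [DecidableEq G] {S : Finset G} {u : ℕ → G → ℝ}

/-- the growth of the levels -/
theorem level_bound (c1 c2 : ℝ) (hc1 : 0 ≤ c1) (hc2 : 0 ≤ c2) (k t : ℕ → ℕ)
    (hk : ∀ n, (k n : ℝ) ≤ c1 + c2 * Real.log (n + 1)) (h0 : t 0 = 0) (ht : ∀ j, t (j + 1) = t j + k (t j)) :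
    ∃ C : ℝ, ∀ j : ℕ, (k (t j) : ℝ) ≤ C * Real.log (j + 2) := by
  set K : ℝ := max 1 (c1 + 2 * c2) with hK
  have hK1 : 1 ≤ K := le_max_left _ _
  have hK2 : c1 + 2 * c2 ≤ K := le_max_right _ _
  have hks : ∀ n : ℕ, (k n : ℝ) ≤ K * Real.sqrt (n + 1) := by
    intro n
    have h1 : (0 : ℝ) < (n : ℝ) + 1 := by positivity
    have hs1 : 1 ≤ Real.sqrt ((n : ℝ) + 1) := by
      rw [Real.one_le_sqrt]
      linarith [(Nat.cast_nonneg n : (0 : ℝ) ≤ n)]
    have h2 : Real.log ((n : ℝ) + 1) ≤ 2 * Real.sqrt (n + 1) := by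
      have h3 := Real.log_le_sub_one_of_pos (Real.sqrt_pos.2 h1)
      rw [Real.log_sqrt h1.le] at h3
      linarith
    calc (k n : ℝ) ≤ c1 + c2 * Real.log (n + 1) := hk n
      _ ≤ c1 * Real.sqrt (n + 1) + c2 * (2 * Real.sqrt (n + 1)) :=
          add_le_add (le_mul_of_one_le_right hc1 hs1) (mul_le_mul_of_nonneg_left h2 hc2)
      _ = (c1 + 2 * c2) * Real.sqrt (n + 1) := by ring
      _ ≤ K * Real.sqrt (n + 1) := mul_le_mul_of_nonneg_right hK2 (Real.sqrt_nonneg _)
  have hlev : ∀ j : ℕ, (t j : ℝ) + 1 ≤ (K * (j + 1)) ^ 2 := by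
    intro j
    induction j with
    | zero =>
      rw [h0]
      push_cast
      nlinarith
    | succ j ih =>
      have hj : (0 : ℝ) ≤ j := Nat.cast_nonneg j
      have h1 := hks (t j)
      have h2 : Real.sqrt ((t j : ℝ) + 1) ≤ K * (j + 1) := by
        rw [← Real.sqrt_sq (by positivity : 0 ≤ K * ((j : ℝ) + 1))]
        exact Real.sqrt_le_sqrt ih
      have h3 : (k (t j) : ℝ) ≤ K * (K * (j + 1)) := h1.trans (mul_le_mul_of_nonneg_left h2 (by linarith))
      rw [ht]
      push_cast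
      nlinarith
  have hlog2 : 0 < Real.log 2 := Real.log_pos (by norm_num)
  refine ⟨(c1 + 2 * c2 * Real.log K) / Real.log 2 + 2 * c2, fun j => ?_⟩
  have hj : (0 : ℝ) ≤ j := Nat.cast_nonneg j
  have hlK : 0 ≤ Real.log K := Real.log_nonneg hK1
  have h1 : Real.log ((t j : ℝ) + 1) ≤ 2 * Real.log K + 2 * Real.log (j + 2) := by
    calc Real.log ((t j : ℝ) + 1) ≤ Real.log ((K * (j + 1)) ^ 2) :=
          Real.log_le_log (by positivity) (hlev j)
      _ = 2 * (Real.log K + Real.log (j + 1)) := by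
          rw [Real.log_pow, Real.log_mul (by positivity) (by positivity)]
          push_cast
          ring
      _ ≤ 2 * Real.log K + 2 * Real.log (j + 2) := by
          have : Real.log ((j : ℝ) + 1) ≤ Real.log (j + 2) :=
            Real.log_le_log (by positivity) (by linarith)
          linarith
  have hL : Real.log 2 ≤ Real.log ((j : ℝ) + 2) := Real.log_le_log (by norm_num) (by linarith)
  have h2 : c1 + 2 * c2 * Real.log K ≤ (c1 + 2 * c2 * Real.log K) / Real.log 2 * Real.log (j + 2) := by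
    have h3 : 0 ≤ c1 + 2 * c2 * Real.log K := by positivity
    calc c1 + 2 * c2 * Real.log K = (c1 + 2 * c2 * Real.log K) / Real.log 2 * Real.log 2 := by
          field_simp
      _ ≤ _ := mul_le_mul_of_nonneg_left hL (by positivity)
  calc (k (t j) : ℝ) ≤ c1 + c2 * Real.log (t j + 1) := hk _
    _ ≤ c1 + c2 * (2 * Real.log K + 2 * Real.log (j + 2)) :=
        add_le_add le_rfl (mul_le_mul_of_nonneg_left h1 hc2)
    _ = (c1 + 2 * c2 * Real.log K) + 2 * c2 * Real.log (j + 2) := by ring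
    _ ≤ (c1 + 2 * c2 * Real.log K) / Real.log 2 * Real.log (j + 2) + 2 * c2 * Real.log (j + 2) := by linarith
    _ = _ := by ring

/-- two descendants -/
theorem two_dsc (hu : IsFlow S u) {W lam : ℝ} (hW : 1 ≤ W) (hlam : 1 < lam)
    (hub : ∀ n, ∀ x ∈ sph S n, u n x ≤ W * (lam ^ n)⁻¹) {n k : ℕ} {x : G} (hx : x ∈ sph S n)
    {q : ℝ} (hq : 0 < q) (hux : q⁻¹ * (lam ^ n)⁻¹ ≤ u n x) (hk : W * q < lam ^ k) :
    ∃ y ∈ dsc S n k x, ∃ y' ∈ dsc S n k x, y ≠ y' ∧ 0 < u (n + k) y ∧ 0 < u (n + k) y' := by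
  classical
  have hl0 : 0 < lam := by linarith
  let pd := (dsc S n k x).filter fun y => 0 < u (n + k) y
  have h1 : u n x = ∑ y ∈ pd, u (n + k) y := by
    rw [hu.dsc n k hx]
    symm
    refine Finset.sum_filter_of_ne fun y hy hne => ?_
    exact lt_of_le_of_ne (hu.nonneg _ y (mem_dsc.1 hy).1) hne.symm
  have h2 : u n x ≤ pd.card * (W * (lam ^ (n + k))⁻¹) := by
    rw [h1, ← nsmul_eq_mul]
    refine Finset.sum_le_card_nsmul _ _ _ fun y hy => ?_
    exact hub _ y (mem_dsc.1 (Finset.mem_filter.1 hy).1).1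
  have h3 : 1 < pd.card := by
    by_contra hc
    push Not at hc
    have hc' : (pd.card : ℝ) ≤ 1 := by exact_mod_cast hc
    have hnk : 0 < W * (lam ^ (n + k))⁻¹ := by positivity
    have h4 : q⁻¹ * (lam ^ n)⁻¹ ≤ W * (lam ^ (n + k))⁻¹ := by
      refine hux.trans (h2.trans ?_)
      calc (pd.card : ℝ) * (W * (lam ^ (n + k))⁻¹) ≤ 1 * (W * (lam ^ (n + k))⁻¹) :=
            mul_le_mul_of_nonneg_right hc' hnk.le
        _ = _ := one_mul _
    rw [pow_add, mul_inv, ← mul_assoc, mul_comm W, mul_assoc, mul_comm q⁻¹,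
      mul_le_mul_iff_right₀ (by positivity), inv_le_iff_one_le_mul₀ hq] at h4
    have h5 : 0 < lam ^ k := by positivity
    have h6 : W * (lam ^ k)⁻¹ * q < 1 := by
      rw [mul_right_comm, ← div_eq_mul_inv, div_lt_one h5]
      exact hk
    linarith
  obtain ⟨y, hy, y', hy', hne⟩ := Finset.one_lt_card.1 h3
  rw [Finset.mem_filter] at hy hy'
  exact ⟨y, hy.1, y', hy'.1, hne, hy.2, hy'.2⟩

/-- the tree -/
theorem exists_tree (hu : IsFlow S u) (k t : ℕ → ℕ) (hkpos : ∀ n, 0 < k n)
    (h0 : t 0 = 0) (ht : ∀ j, t (j + 1) = t j + k (t j)) (h1 : 0 < u 0 1)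
    (hd : ∀ n, ∀ x ∈ sph S n, 0 < u n x → ∃ y ∈ dsc S n (k n) x, ∃ y' ∈ dsc S n (k n) x,
      y ≠ y' ∧ 0 < u (n + k n) y ∧ 0 < u (n + k n) y') :
    ∃ φ : List Bool → G, Function.Injective φ ∧ φ [] = 1 ∧ (∀ l, φ l ∈ sph S (t l.length)) ∧
      ∀ b l, φ (b :: l) * (φ l)⁻¹ ∈ S ^ k (t l.length) := by
  classical
  have hex : ∀ (n : ℕ) (x : G), ∃ f : Bool → G, x ∈ sph S n → 0 < u n x →
      f false ≠ f true ∧ ∀ b, f b ∈ dsc S n (k n) x ∧ 0 < u (n + k n) (f b) := by
    intro n x
    by_cases h : x ∈ sph S n ∧ 0 < u n x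
    · obtain ⟨y, hy, y', hy', hne, hp, hp'⟩ := hd n x h.1 h.2
      refine ⟨fun b => if b then y' else y, fun _ _ => ⟨?_, ?_⟩⟩
      · simpa using hne
      · intro b
        cases b
        · exact ⟨hy, hp⟩
        · exact ⟨hy', hp'⟩
    · refine ⟨fun _ => 1, fun ha hb => absurd ⟨ha, hb⟩ h⟩
  choose f hf using hex
  let φ : List Bool → G := fun l => List.rec (1 : G) (fun b l x => f (t l.length) x b) l
  have hφ0 : φ [] = 1 := rfl
  have hφ1 : ∀ b l, φ (b :: l) = f (t l.length) (φ l) b := fun _ _ => rfl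
  have hinv : ∀ l, φ l ∈ sph S (t l.length) ∧ 0 < u (t l.length) (φ l) := by
    intro l
    induction l with
    | nil =>
      rw [hφ0]
      show (1 : G) ∈ sph S (t 0) ∧ 0 < u (t 0) 1
      rw [h0]
      exact ⟨one_mem_sph, h1⟩
    | cons b l ih =>
      rw [hφ1, List.length_cons, ht]
      have h2 := (hf (t l.length) (φ l) ih.1 ih.2).2 b
      exact ⟨(mem_dsc.1 h2.1).1, h2.2⟩
  have hdsc : ∀ b l, φ (b :: l) ∈ dsc S (t l.length) (k (t l.length)) (φ l) := by
    intro b l
    rw [hφ1]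
    exact ((hf (t l.length) (φ l) (hinv l).1 (hinv l).2).2 b).1
  have htmono : StrictMono t := strictMono_nat_of_lt_succ fun j => by
    rw [ht]
    have := hkpos (t j)
    omega
  refine ⟨φ, ?_, hφ0, fun l => (hinv l).1, ?_⟩
  · intro l
    induction l with
    | nil =>
      intro l' h
      have h2 : t ([] : List Bool).length = t l'.length := by
        refine sph_unique (hinv []).1 ?_
        rw [h]
        exact (hinv l').1
      have h3 := htmono.injective h2
      exact (List.length_eq_zero_iff.1 h3.symm).symm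
    | cons b l ih =>
      intro l' h
      have h2 : t (b :: l).length = t l'.length := by
        refine sph_unique (hinv (b :: l)).1 ?_
        rw [h]
        exact (hinv l').1
      have h3 := htmono.injective h2
      cases l' with
      | nil =>
        rw [List.length_cons, List.length_nil] at h3
        omega
      | cons b' l' =>
        rw [List.length_cons, List.length_cons] at h3
        have h4 : l.length = l'.length := by omega
        have h5 := (mem_dsc.1 (hdsc b l)).2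
        have h6 := (mem_dsc.1 (hdsc b' l')).2
        have h7 : φ l = φ l' := by
          rw [← h5, ← h6, h, h4]
        obtain rfl := ih h7
        rw [hφ1, hφ1] at h
        have h8 := (hf (t l.length) (φ l) (hinv l).1 (hinv l).2).1
        cases b <;> cases b'
        · rfl
        · exact absurd h h8
        · exact absurd h.symm h8
        · rfl
  · intro b l
    obtain ⟨h2, h3⟩ := mem_dsc.1 (hdsc b l)
    obtain ⟨_, g, hg, h4⟩ := iter_par h2
    rw [h3] at h4
    rw [h4, mul_inv_cancel_right]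
    exact hg

end Pool.Agent.MP_587aff_al.LS
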